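import Pool.Agent.Results.MP_74d590_lc.ContTilingUndecidable
import Pool.Agent.Y669.TA.TileU

/-! Continuous tilings: every recursively enumerable set reduces, the nonexistence is not
semidecidable. Stronger form of `ContTilingUndecidable`. -/

set_option autoImplicit false

namespace Pool.Agent.Results.MP_74d590_lc.NotSemidecidable

open Pool.Agent.Results.MP_74d590_lc.ContTilingUndecidable

/-- For every `n ≥ 2`:
(1) for every recursively enumerable set `W` there is a computable function `f` from the natural
numbers to finite lists of nonempty tiles in `ℤ^n`, all of which tile `ℤ^n`, such that there is a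
continuous tiling of `F(2^(ℤ^n))` with the tiles `f m` if and only if `m` is in `W`;
(2) there is no recursively enumerable set `E` which contains, of all the lists of tiles which tile
`ℤ^n`, exactly those without a continuous tiling; in other words: also for the tile sets
which are known to tile `ℤ^n`, the nonexistence of a continuous tiling is not semidecidable.
(3), (4) The earlier results: the existence of a continuous tiling is undecidable (Q1), also for the
tile sets which tile `ℤ^n` (Q2). -/
theorem result (n : ℕ) (hn : 2 ≤ n) :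
    (∀ W : ℕ → Prop, REPred W → ∃ f : ℕ → List (List (Fin n → ℤ)), Computable f ∧
      ∀ m, (∀ l ∈ f m, l ≠ []) ∧ TilesSpace (tileSet (f m)) ∧
        (HasContTiling (tileSet (f m)) ↔ W m)) ∧
    (¬ ∃ E : List (List (Fin n → ℤ)) → Prop, REPred E ∧
      ∀ L : List (List (Fin n → ℤ)), (∀ l ∈ L, l ≠ []) → TilesSpace (tileSet L) →
        (E L ↔ ¬ HasContTiling (tileSet L))) ∧
    (¬ ∃ φ : List (List (Fin n → ℤ)) →. Bool, Partrec φ ∧
      ∀ L : List (List (Fin n → ℤ)), (∀ l ∈ L, l ≠ []) → Correct φ L) ∧
    (¬ ∃ φ : List (List (Fin n → ℤ)) →. Bool, Partrec φ ∧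
      ∀ L : List (List (Fin n → ℤ)), (∀ l ∈ L, l ≠ []) → TilesSpace (tileSet L) →
        Correct φ L) := by
  have key : ∀ W : ℕ → Prop, REPred W → ∃ f : ℕ → List (List (Fin n → ℤ)), Computable f ∧
      ∀ m, (∀ l ∈ f m, l ≠ []) ∧ TilesSpace (tileSet (f m)) ∧
        (HasContTiling (tileSet (f m)) ↔ W m) := by
    intro W hW
    obtain ⟨K, V, hK, hV, hB, hiff⟩ := Pool.Agent.Y669.TA.TileU.family'
    obtain ⟨g, hg, h⟩ := Pool.Agent.Y669.TA.SysU.universal hW
    refine ⟨fun m => Pool.Agent.Helper948.Tile.tilesN n (K (g m)) (V (g m)),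
      ((Pool.Agent.Helper948.Tile.tilesN_pr n).to_comp.comp hK hV).comp hg, fun m => ⟨?_, ?_, ?_⟩⟩
    · exact fun l hl => Pool.Agent.Helper948.Tile.ne_nil_of_mem n (K (g m)) (V (g m))
        (hB (g m)) l hl
    · exact Pool.Agent.Helper948.Tile.tiles_space n hn (K (g m)) (V (g m))
    · rw [cont_iff]
      exact (hiff (g m) n hn).trans (h m).symm
  refine ⟨key, ?_, Pool.Agent.Results.MP_74d590_lc.ContTilingUndecidable.result n hn⟩
  rintro ⟨E, hE, hEL⟩
  obtain ⟨W, hW, hco⟩ := Pool.Agent.Y669.TA.SysU.exists_re_not_co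
  obtain ⟨f, hf, h⟩ := key W hW
  apply hco
  have h1 : REPred fun m => E (f m) := Partrec.comp hE hf
  refine h1.of_eq fun m => ?_
  rw [hEL _ (h m).1 (h m).2.1, (h m).2.2]

end Pool.Agent.Results.MP_74d590_lc.NotSemidecidable
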